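import Mathlib
import Pool.Agent.H381R4.CM.Stubs

/-!
# Approximation of symmetric convex bodies by polytopes from outside
-/

set_option autoImplicit false
open MeasureTheory Matrix Filter Topology
open scoped ENNReal BigOperators Pointwise

namespace Pool.Agent.H381CM

namespace APXaux

/-- the polar body -/
def LL {d : ℕ} (K : Set (V d)) : Set (V d) := {u | ∀ x ∈ K, |u ⬝ᵥ x| ≤ 1}

lemma sep {d : ℕ} {K : Set (V d)} (hconv : Convex ℝ K) (hcl : IsClosed K) (h0 : (0 : V d) ∈ K)
    (hs : ∀ x ∈ K, -x ∈ K) {x : V d} (hx : x ∉ K) : ∃ u ∈ LL K, 1 < u ⬝ᵥ x := by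
  obtain ⟨f, s, hf, hu⟩ := geometric_hahn_banach_closed_point hconv hcl hx
  have hs0 : 0 < s := by
    have := hf 0 h0
    rwa [map_zero] at this
  set v : V d := fun i => s⁻¹ * f (fun j => if i = j then 1 else 0) with hv
  have hvf : ∀ y : V d, v ⬝ᵥ y = s⁻¹ * f y := by
    intro y
    have h1 : f y = ∑ i, y i • f (fun j => if i = j then (1 : ℝ) else 0) :=
      LinearMap.pi_apply_eq_sum_univ (f : V d →ₗ[ℝ] ℝ) y
    rw [h1, dotProduct, Finset.mul_sum]
    refine Finset.sum_congr rfl fun i _ => ?_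
    rw [hv, smul_eq_mul]; ring
  refine ⟨v, ?_, ?_⟩
  · intro y hy
    rw [hvf, abs_mul, abs_of_pos (inv_pos.mpr hs0), inv_mul_le_iff₀ hs0, mul_one, abs_le]
    have h1 := hf y hy
    have h2 := hf (-y) (hs y hy)
    rw [map_neg] at h2
    constructor <;> linarith
  · rw [hvf, lt_inv_mul_iff₀ hs0, mul_one]
    exact hu

end APXaux

open APXaux

theorem T_APX : S_APX := by
  classical
  intro d C hconvC hbC h0C hsC t ht
  have ht0 : 0 < t := by linarith
  set K : Set (V d) := closure C with hK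
  have hconv : Convex ℝ K := hconvC.closure
  have hcl : IsClosed K := isClosed_closure
  have hbd : Bornology.IsBounded K := hbC.closure
  have hCK : C ⊆ K := subset_closure
  have hn0 : K ∈ 𝓝 (0 : V d) :=
    Filter.mem_of_superset (mem_interior_iff_mem_nhds.mp h0C) hCK
  have h0K : (0 : V d) ∈ K := mem_of_mem_nhds hn0
  have hs : ∀ x ∈ K, -x ∈ K := by
    intro x hx
    have hm : Set.MapsTo (fun y : V d => -y) C C := fun y hy => hsC y hy
    exact (hm.closure continuous_neg) hx
  have hcg : Continuous (gauge K) := continuous_gauge hconv hn0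
  have hg1 : ∀ x, gauge K x ≤ 1 ↔ x ∈ K := by
    intro x
    rw [gauge_le_one_iff_mem_closure hconv hn0, hcl.closure_eq]
  have hgt : ∀ x, gauge K x ≤ t → t⁻¹ • x ∈ K := by
    intro x hx
    rw [← hg1, gauge_smul_of_nonneg (inv_pos.mpr ht0).le, smul_eq_mul, inv_mul_le_iff₀ ht0, mul_one]
    exact hx
  obtain ⟨R, hR⟩ := hbd.exists_norm_le
  have hbt : ∀ x, t⁻¹ • x ∈ K → ‖x‖ ≤ t * R := by
    intro x hx
    have := hR _ hx
    rwa [norm_smul, Real.norm_eq_abs, abs_of_pos (inv_pos.mpr ht0), inv_mul_le_iff₀ ht0] at this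
  have hS : IsCompact {x : V d | gauge K x = t} := by
    apply Metric.isCompact_of_isClosed_isBounded
    · exact isClosed_eq hcg continuous_const
    · rw [isBounded_iff_forall_norm_le]
      exact ⟨t * R, fun x hx => hbt x (hgt x (le_of_eq hx))⟩
  obtain ⟨T', hT'⟩ := hS.elim_finite_subcover (fun l : LL K => {y : V d | 1 < (l : V d) ⬝ᵥ y})
    (fun l => isOpen_lt continuous_const (by unfold dotProduct; fun_prop)) (by
      intro x hx
      have hxK : x ∉ K := by
        rw [← hg1]
        have : gauge K x = t := hx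
        rw [this, not_le]; exact ht
      obtain ⟨l, hl, hlx⟩ := sep hconv hcl h0K hs hxK
      exact Set.mem_iUnion.mpr ⟨⟨l, hl⟩, hlx⟩)
  set u : Fin T'.card → V d := fun k => ((T'.equivFin.symm k : LL K) : V d) with hu
  have huL : ∀ k, u k ∈ LL K := fun k => (T'.equivFin.symm k : LL K).2
  have husurj : ∀ a ∈ T', ∃ k, u k = (a : V d) := by
    intro a ha
    refine ⟨T'.equivFin ⟨a, ha⟩, ?_⟩
    simp [hu]
  have hCP : C ⊆ Pol u := fun x hx k => huL k x (hCK hx)
  have hPg : ∀ x ∈ Pol u, t⁻¹ • x ∈ K := by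
    intro x hx
    apply hgt
    by_contra hcon
    push Not at hcon
    have hgp : 0 < gauge K x := lt_trans ht0 hcon
    set s : ℝ := t / gauge K x with hs'
    have hs0 : 0 ≤ s := by positivity
    have hs1 : s ≤ 1 := by rw [hs', div_le_one hgp]; exact hcon.le
    have hgs : gauge K (s • x) = t := by
      rw [gauge_smul_of_nonneg hs0, smul_eq_mul, hs']
      field_simp
    obtain ⟨a, ha⟩ := Set.mem_iUnion.mp (hT' hgs)
    obtain ⟨haT, ha2⟩ := Set.mem_iUnion.mp ha
    have ha3 : 1 < (a : V d) ⬝ᵥ (s • x) := ha2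
    obtain ⟨k, hk⟩ := husurj a haT
    rw [← hk, dotProduct_smul, smul_eq_mul] at ha3
    have h1 : |u k ⬝ᵥ x| ≤ 1 := hx k
    have h2 := le_abs_self (u k ⬝ᵥ x)
    nlinarith
  refine ⟨T'.card, u, ?_, hCP, ?_⟩
  · intro x hx
    by_contra hx0
    have hn : 0 < ‖x‖ := norm_pos_iff.mpr hx0
    set c : ℝ := (t * |R| + 1) / ‖x‖ with hc
    have hmem : c • x ∈ Pol u := by
      intro k
      rw [dotProduct_smul, hx k, smul_zero, abs_zero]
      exact zero_le_one
    have h1 := hbt _ (hPg _ hmem)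
    have hc0 : 0 < c := by positivity
    rw [norm_smul, Real.norm_eq_abs, abs_of_pos hc0, hc, div_mul_cancel₀ _ hn.ne'] at h1
    have h2 : t * R ≤ t * |R| := mul_le_mul_of_nonneg_left (le_abs_self R) ht0.le
    linarith
  · intro x hx
    rw [Set.mem_smul_set_iff_inv_smul_mem₀ ht0.ne']
    exact hPg x hx

end Pool.Agent.H381CM
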